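import Mathlib

set_option autoImplicit false

namespace Pool.Agent.MagicSquares
open Finset

variable {ι : Type} [Fintype ι] [DecidableEq ι] {W : Type} [AddCommGroup W] [DecidableEq W]

/-- symmetric box with parity condition and prescribed image -/
noncomputable def Y (M : (ι → ℤ) →+ W) (t : ι → ℕ) (δ : W) : Finset (ι → ℤ) :=
  (Fintype.piFinset (fun e => Finset.Icc (-(t e : ℤ)) (t e))).filter
    (fun y => (∀ e, Even (y e - t e)) ∧ M y = δ)

/-- kernel elements in the box -/
noncomputable def Z (M : (ι → ℤ) →+ W) (t : ι → ℕ) : Finset (ι → ℤ) :=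
  (Fintype.piFinset (fun e => Finset.Icc (-(t e : ℤ)) (t e))).filter (fun s => M s = 0)

lemma mem_Y {M : (ι → ℤ) →+ W} {t : ι → ℕ} {δ : W} {y : ι → ℤ} :
    y ∈ Y M t δ ↔ (∀ e, |y e| ≤ t e) ∧ (∀ e, Even (y e - t e)) ∧ M y = δ := by
  simp only [Y, mem_filter, Fintype.mem_piFinset, mem_Icc, abs_le]

lemma mem_Z {M : (ι → ℤ) →+ W} {t : ι → ℕ} {s : ι → ℤ} :
    s ∈ Z M t ↔ (∀ e, |s e| ≤ t e) ∧ M s = 0 := by
  simp only [Z, mem_filter, Fintype.mem_piFinset, mem_Icc, abs_le]

lemma even_sub_abs (a : ℤ) : Even (a - |a|) := by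
  rcases abs_cases a with ⟨h, -⟩ | ⟨h, -⟩
  · rw [h]; simp
  · rw [h]; exact ⟨a, by ring⟩

lemma cast_sub_natAbs {t : ℕ} {s : ℤ} (h : |s| ≤ t) : ((t - s.natAbs : ℕ) : ℤ) = t - |s| := by
  rw [Int.abs_eq_natAbs] at *; omega

/-- the pairing identity -/
lemma sq_eq (M : (ι → ℤ) →+ W) (hW : ∀ w : W, w + w = 0 → w = 0) (t : ι → ℕ) (δ : W) :
    (Y M t δ).card ^ 2 = ∑ s ∈ Z M t, (Y M (fun e => t e - (s e).natAbs) δ).card := by
  rw [sq, ← card_product]
  rw [card_eq_sum_card_fiberwise (s := Y M t δ ×ˢ Y M t δ) (t := Z M t)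
    (f := fun p => fun e => (p.1 e - p.2 e) / 2)]
  · refine sum_congr rfl (fun s hs => ?_)
    rw [mem_Z] at hs
    have key : ∀ p : (ι → ℤ) × (ι → ℤ), p ∈ (Y M t δ ×ˢ Y M t δ).filter
        (fun p => (fun e => (p.1 e - p.2 e) / 2) = s) →
        (∀ e, |p.1 e| ≤ t e) ∧ (∀ e, |p.2 e| ≤ t e) ∧ (∀ e, Even (p.2 e - t e)) ∧ M p.2 = δ ∧
          ∀ e, p.1 e = p.2 e + 2 * s e := by
      intro p hp
      rw [mem_filter, mem_product, mem_Y, mem_Y] at hp
      obtain ⟨⟨⟨h1, h2, h3⟩, ⟨h1', h2', h3'⟩⟩, h4⟩ := hp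
      refine ⟨h1, h1', h2', h3', fun e => ?_⟩
      have := congrFun h4 e
      obtain ⟨a, ha⟩ := h2 e
      obtain ⟨b, hb⟩ := h2' e
      omega
    refine card_bij' (fun p _ => fun e => (p.1 e + p.2 e) / 2)
      (fun d _ => (fun e => d e + s e, fun e => d e - s e)) ?_ ?_ ?_ ?_
    · intro p hp
      obtain ⟨h1, h1', h2', h3', hs'⟩ := key p hp
      have hd : ∀ e, (p.1 e + p.2 e) / 2 = p.2 e + s e := by
        intro e; have := hs' e; omega
      rw [mem_Y]
      refine ⟨fun e => ?_, fun e => ?_, ?_⟩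
      · rw [hd, cast_sub_natAbs (hs.1 e)]
        have a1 := h1 e
        have a2 := h1' e
        have a3 := hs.1 e
        have a4 := hs' e
        rw [abs_le] at a1 a2 a3
        rw [abs_le]
        rcases abs_cases (s e) with ⟨h, -⟩ | ⟨h, -⟩ <;> rw [h] <;> constructor <;> omega
      · rw [hd, cast_sub_natAbs (hs.1 e)]
        have e1 : p.2 e + s e - (t e - |s e|) = (p.2 e - t e) + (s e - |s e|) + 2 * |s e| := by ring
        rw [e1]
        exact ((h2' e).add (even_sub_abs _)).add (even_two_mul _)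
      · have : (fun e => (p.1 e + p.2 e) / 2) = p.2 + s := by
          funext e; rw [hd e]; rfl
        rw [this, map_add, h3', hs.2, add_zero]
    · intro d hd
      rw [mem_Y] at hd
      obtain ⟨h1, h2, h3⟩ := hd
      have h1' : ∀ e, |d e| ≤ t e - |s e| := by
        intro e; have := h1 e; rwa [cast_sub_natAbs (hs.1 e)] at this
      have h2' : ∀ e, Even (d e - (t e - |s e|)) := by
        intro e; have := h2 e; rwa [cast_sub_natAbs (hs.1 e)] at this
      rw [mem_filter, mem_product, mem_Y, mem_Y]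
      refine ⟨⟨⟨fun e => ?_, fun e => ?_, ?_⟩, ⟨fun e => ?_, fun e => ?_, ?_⟩⟩, ?_⟩
      · simp only
        have := abs_add_le (d e) (s e)
        have := h1' e
        linarith
      · simp only
        have e1 : d e + s e - t e = (d e - (t e - |s e|)) + (s e - |s e|) := by ring
        rw [e1]
        exact (h2' e).add (even_sub_abs _)
      · have : (fun e => d e + s e) = d + s := rfl
        simp only [this]
        rw [map_add, h3, hs.2, add_zero]
      · simp only
        have := abs_sub (d e) (s e)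
        have := h1' e
        linarith
      · simp only
        have e1 : d e - s e - t e = (d e - (t e - |s e|)) - (s e + |s e|) := by ring
        rw [e1]
        refine (h2' e).sub ?_
        have := even_sub_abs (s e)
        have e2 : s e + |s e| = (s e - |s e|) + 2 * |s e| := by ring
        rw [e2]; exact this.add (even_two_mul _)
      · have : (fun e => d e - s e) = d - s := rfl
        simp only [this]
        rw [map_sub, h3, hs.2, sub_zero]
      · funext e
        simp only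
        omega
    · intro p hp
      obtain ⟨h1, h1', h2', h3', hs'⟩ := key p hp
      refine Prod.ext ?_ ?_
      · funext e; have := hs' e; simp only; omega
      · funext e; have := hs' e; simp only; omega
    · intro d _
      funext e
      simp only
      omega
  · rintro ⟨y, y'⟩ hp
    rw [mem_coe, mem_product, mem_Y, mem_Y] at hp
    obtain ⟨⟨h1, h2, h3⟩, ⟨h1', h2', h3'⟩⟩ := hp
    have hhalf : ∀ e, 2 * ((y e - y' e) / 2) = y e - y' e := by
      intro e
      obtain ⟨a, ha⟩ := h2 e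
      obtain ⟨b, hb⟩ := h2' e
      simp only at ha hb
      omega
    rw [mem_coe, mem_Z]
    refine ⟨fun e => ?_, ?_⟩
    · have a1 := h1 e
      have a2 := h1' e
      simp only at a1 a2 ⊢
      rw [abs_le] at *
      constructor <;> omega
    · apply hW
      rw [← map_add]
      have : (fun e => (y e - y' e) / 2) + (fun e => (y e - y' e) / 2) = y - y' := by
        funext e
        have := hhalf e
        simp only [Pi.add_apply, Pi.sub_apply]
        omega
      simp only at h3 h3'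
      rw [this, map_sub, h3, h3', sub_self]

/-- the number of points over the centre is maximal -/
theorem central_max (M : (ι → ℤ) →+ W) (hW : ∀ w : W, w + w = 0 → w = 0)
    (Pr : (ι → ℕ) → Prop)
    (hP : ∀ t, Pr t → ∀ s ∈ Z M t, Pr (fun e => t e - (s e).natAbs))
    (hex : ∀ t, Pr t → (Y M t 0).Nonempty) :
    ∀ (N : ℕ) (t : ι → ℕ), ∑ e, t e = N → Pr t → ∀ δ : W, (Y M t δ).card ≤ (Y M t 0).card := by
  intro N
  induction N using Nat.strong_induction_on with
  | _ N ih =>
    intro t ht hPt δ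
    have hx := sq_eq M hW t δ
    have hy := sq_eq M hW t 0
    have h0 : (0 : ι → ℤ) ∈ Z M t := by
      rw [mem_Z]; exact ⟨fun e => by simp, map_zero M⟩
    rw [← add_sum_erase _ _ h0] at hx hy
    have e0 : (fun e => t e - ((0 : ι → ℤ) e).natAbs) = t := by
      funext e; simp
    rw [e0] at hx hy
    have hle : ∑ s ∈ (Z M t).erase 0, (Y M (fun e => t e - (s e).natAbs) δ).card
        ≤ ∑ s ∈ (Z M t).erase 0, (Y M (fun e => t e - (s e).natAbs) 0).card := by
      refine sum_le_sum (fun s hs => ?_)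
      rw [mem_erase] at hs
      obtain ⟨hs0, hs⟩ := hs
      have hs' := mem_Z.1 hs
      refine ih (∑ e, (t e - (s e).natAbs)) ?_ _ rfl (hP t hPt s hs) δ
      rw [← ht]
      obtain ⟨e, he⟩ : ∃ e, s e ≠ 0 := by
        by_contra h
        push Not at h
        exact hs0 (funext h)
      refine sum_lt_sum (fun i _ => Nat.sub_le _ _) ⟨e, mem_univ _, ?_⟩
      have h1 : 0 < (s e).natAbs := Int.natAbs_pos.2 he
      have h2 := hs'.1 e
      rw [Int.abs_eq_natAbs] at h2
      omega
    have hpos : 0 < (Y M t 0).card := card_pos.2 (hex t hPt)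
    by_contra hcon
    push Not at hcon
    obtain ⟨x, hx'⟩ : ∃ x, x = (Y M t δ).card := ⟨_, rfl⟩
    obtain ⟨y, hy'⟩ : ∃ y, y = (Y M t 0).card := ⟨_, rfl⟩
    rw [← hx'] at hx hcon
    rw [← hy'] at hy hpos hcon
    nlinarith

/-- strict version -/
theorem central_max_strict (M : (ι → ℤ) →+ W) (hW : ∀ w : W, w + w = 0 → w = 0)
    (Pr : (ι → ℕ) → Prop)
    (hP : ∀ t, Pr t → ∀ s ∈ Z M t, Pr (fun e => t e - (s e).natAbs))
    (hex : ∀ t, Pr t → (Y M t 0).Nonempty) (t : ι → ℕ) (hPt : Pr t) (δ : W) (hδ : δ ≠ 0)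
    (s0 : ι → ℤ) (hs0 : s0 ≠ 0) (hM : M s0 = 0) (habs : ∀ e, (s0 e).natAbs = t e) :
    (Y M t δ).card < (Y M t 0).card := by
  have hmain : ∀ t', Pr t' → ∀ δ : W, (Y M t' δ).card ≤ (Y M t' 0).card :=
    fun t' h δ => central_max M hW Pr hP hex _ t' rfl h δ
  have hx := sq_eq M hW t δ
  have hy := sq_eq M hW t 0
  have h0 : (0 : ι → ℤ) ∈ Z M t := by
    rw [mem_Z]; exact ⟨fun e => by simp, map_zero M⟩
  rw [← add_sum_erase _ _ h0] at hx hy
  have e0 : (fun e => t e - ((0 : ι → ℤ) e).natAbs) = t := by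
    funext e; simp
  rw [e0] at hx hy
  have hs0Z : s0 ∈ Z M t := by
    rw [mem_Z]
    refine ⟨fun e => ?_, hM⟩
    rw [Int.abs_eq_natAbs, habs e]
  have ez : (fun e => t e - (s0 e).natAbs) = 0 := by
    funext e; rw [habs e]; simp
  have hzero : (Y M (fun e => t e - (s0 e).natAbs) δ).card = 0 := by
    rw [card_eq_zero, eq_empty_iff_forall_notMem]
    intro y hy'
    rw [ez, mem_Y] at hy'
    have : y = 0 := by
      funext e
      have := hy'.1 e
      simp only [Pi.zero_apply, Nat.cast_zero] at this ⊢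
      exact abs_nonpos_iff.1 this
    rw [this, map_zero] at hy'
    exact hδ hy'.2.2.symm
  have hone : 0 < (Y M (fun e => t e - (s0 e).natAbs) 0).card := by
    rw [card_pos]
    refine ⟨0, ?_⟩
    rw [ez, mem_Y]
    refine ⟨fun e => by simp, fun e => by simp, map_zero M⟩
  have hlt : ∑ s ∈ (Z M t).erase 0, (Y M (fun e => t e - (s e).natAbs) δ).card
      < ∑ s ∈ (Z M t).erase 0, (Y M (fun e => t e - (s e).natAbs) 0).card := by
    refine sum_lt_sum (fun s hs => ?_) ⟨s0, mem_erase.2 ⟨hs0, hs0Z⟩, ?_⟩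
    · exact hmain _ (hP t hPt s (mem_erase.1 hs).2) δ
    · rw [hzero]; exact hone
  have hle := hmain t hPt δ
  rcases hle.lt_or_eq with h | h
  · exact h
  · exfalso
    rw [h] at hx
    omega

end Pool.Agent.MagicSquares
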