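import Mathlib

set_option autoImplicit false

namespace Pool.Agent.MagicSquares
open Finset

variable {κ V : Type} [DecidableEq κ] [DecidableEq V]

/-- indicator as an integer -/
def ind (a b : V) : ℤ := if a = b then 1 else 0

/-- Every finite family of edges with all degrees even can be signed so that it is balanced. -/
theorem exists_balanced : ∀ (N : ℕ) (E : Finset κ) (u v : κ → V), E.card = N →
    (∀ x, Even (∑ e ∈ E, (ind (u e) x + ind (v e) x))) →
    ∃ ε : κ → ℤ, (∀ e, ε e = 1 ∨ ε e = -1) ∧
      ∀ x, ∑ e ∈ E, ε e * (ind (u e) x - ind (v e) x) = 0 := by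
  intro N
  induction N with
  | zero =>
    intro E u v hE _
    rw [card_eq_zero] at hE
    subst hE
    exact ⟨fun _ => 1, fun _ => Or.inl rfl, fun x => by simp⟩
  | succ N ih =>
    intro E u v hE hdeg
    obtain ⟨e1, he1⟩ : E.Nonempty := by rw [← card_pos]; omega
    have hE' : (E.erase e1).card = N := by rw [card_erase_of_mem he1, hE]; rfl
    by_cases hloop : u e1 = v e1
    · obtain ⟨ε, h1, h2⟩ := ih (E.erase e1) u v hE' (by
        intro x
        have := hdeg x
        rw [← add_sum_erase _ _ he1] at this
        have h3 : Even (ind (u e1) x + ind (v e1) x) := by rw [hloop]; exact ⟨_, rfl⟩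
        exact (Int.even_add.1 this).1 h3)
      refine ⟨ε, h1, fun x => ?_⟩
      rw [← add_sum_erase _ _ he1, h2 x, hloop]
      ring
    · -- find another edge at v e1
      obtain ⟨w, hw⟩ : ∃ w, w = v e1 := ⟨_, rfl⟩
      have hex : ∃ e2 ∈ E.erase e1, ¬ Even (ind (u e2) w + ind (v e2) w) := by
        by_contra hcon
        push Not at hcon
        have h3 := hdeg w
        rw [← add_sum_erase _ _ he1] at h3
        have h4 : Even (∑ e ∈ E.erase e1, (ind (u e) w + ind (v e) w)) :=
          Finset.even_sum _ hcon
        have h5 : Even (ind (u e1) w + ind (v e1) w) := (Int.even_add.1 h3).2 h4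
        have h6 : ind (u e1) w = 0 := by
          unfold ind; rw [if_neg]; rw [hw]; exact hloop
        have h7 : ind (v e1) w = 1 := by unfold ind; rw [if_pos hw.symm]
        rw [h6, h7] at h5
        exact absurd h5 (by decide)
      obtain ⟨e2, he2, hodd⟩ := hex
      have hne : e2 ≠ e1 := (mem_erase.1 he2).1
      -- the other endpoint and the sign
      obtain ⟨z, σ, hσ, hz⟩ : ∃ (z : V) (σ : ℤ), (σ = 1 ∨ σ = -1) ∧
          ∀ x, σ * (ind (u e2) x - ind (v e2) x) = ind w x - ind z x ∧
            ind (u e2) x + ind (v e2) x = ind w x + ind z x := by
        by_cases hu : u e2 = w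
        · refine ⟨v e2, 1, Or.inl rfl, fun x => ?_⟩
          rw [hu]; constructor <;> ring
        · by_cases hv : v e2 = w
          · refine ⟨u e2, -1, Or.inr rfl, fun x => ?_⟩
            rw [hv]; constructor <;> ring
          · exfalso
            apply hodd
            unfold ind
            rw [if_neg hu, if_neg hv]; simp
      obtain ⟨ε, h1, h2⟩ := ih (E.erase e1) (Function.update u e2 (u e1)) (Function.update v e2 z)
        hE' (by
          intro x
          have := hdeg x
          rw [← add_sum_erase _ _ he1, ← add_sum_erase _ _ he2] at this
          rw [← add_sum_erase _ _ he2]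
          have h3 : ∑ e ∈ (E.erase e1).erase e2, (ind (Function.update u e2 (u e1) e) x
              + ind (Function.update v e2 z e) x)
              = ∑ e ∈ (E.erase e1).erase e2, (ind (u e) x + ind (v e) x) := by
            refine sum_congr rfl (fun e he => ?_)
            have : e ≠ e2 := (mem_erase.1 he).1
            rw [Function.update_of_ne this, Function.update_of_ne this]
          rw [h3, Function.update_self, Function.update_self]
          have h4 := (hz x).2
          have e3 : ind (u e1) x + ind z x + ∑ e ∈ (E.erase e1).erase e2, (ind (u e) x + ind (v e) x)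
              = (ind (u e1) x + ind (v e1) x + (ind (u e2) x + ind (v e2) x
                + ∑ e ∈ (E.erase e1).erase e2, (ind (u e) x + ind (v e) x))) - 2 * ind w x := by
            rw [h4, hw]; ring
          rw [e3]
          exact this.sub (even_two_mul _))
      refine ⟨fun e => if e = e1 then ε e2 else if e = e2 then σ * ε e2 else ε e, ?_, ?_⟩
      · intro e
        simp only
        split_ifs with h3 h4
        · exact h1 e2
        · rcases hσ with h5 | h5 <;> rcases h1 e2 with h6 | h6 <;> rw [h5, h6] <;> simp
        · exact h1 e
      · intro x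
        rw [← add_sum_erase _ _ he1, ← add_sum_erase _ _ he2]
        have h3 : ∑ e ∈ (E.erase e1).erase e2,
            (if e = e1 then ε e2 else if e = e2 then σ * ε e2 else ε e) * (ind (u e) x - ind (v e) x)
            = ∑ e ∈ (E.erase e1).erase e2,
              ε e * (ind (Function.update u e2 (u e1) e) x - ind (Function.update v e2 z e) x) := by
          refine sum_congr rfl (fun e he => ?_)
          have g1 : e ≠ e2 := (mem_erase.1 he).1
          have g2 : e ≠ e1 := (mem_erase.1 (mem_erase.1 he).2).1
          rw [if_neg g2, if_neg g1, Function.update_of_ne g1, Function.update_of_ne g1]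
        rw [h3]
        beta_reduce
        rw [if_pos rfl, if_neg hne, if_pos rfl]
        have h4 := h2 x
        rw [← add_sum_erase _ _ he2, Function.update_self, Function.update_self] at h4
        have h5 := (hz x).1
        have e4 : σ * ε e2 * (ind (u e2) x - ind (v e2) x) = ε e2 * (ind w x - ind z x) := by
          rw [← h5]; ring
        rw [e4]
        rw [hw] at *
        linarith

end Pool.Agent.MagicSquares
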