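import Mathlib
import Pool.Agent.MagicSquares.Central
import Pool.Agent.MagicSquares.Euler

set_option autoImplicit false

namespace Pool.Agent.MagicSquares
open Finset

/-- row and column sums -/
def mg (n : ℕ) : (Fin n × Fin n → ℤ) →+ ((Fin n → ℤ) × (Fin n → ℤ)) where
  toFun y := (fun i => ∑ j, y (i, j), fun j => ∑ i, y (i, j))
  map_zero' := by
    ext <;> simp
  map_add' a b := by
    ext <;> simp [sum_add_distrib]

lemma mg_apply {n : ℕ} (y : Fin n × Fin n → ℤ) :
    mg n y = (fun i => ∑ j, y (i, j), fun j => ∑ i, y (i, j)) := rfl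

lemma no_two_torsion {n : ℕ} : ∀ w : (Fin n → ℤ) × (Fin n → ℤ), w + w = 0 → w = 0 := by
  rintro ⟨a, b⟩ h
  rw [Prod.mk_add_mk, Prod.mk_eq_zero] at h
  rw [Prod.mk_eq_zero]
  constructor
  · funext i
    have := congrFun h.1 i
    simp only [Pi.add_apply, Pi.zero_apply] at this ⊢
    omega
  · funext i
    have := congrFun h.2 i
    simp only [Pi.add_apply, Pi.zero_apply] at this ⊢
    omega

/-- all row and column sums are even -/
def Pr (n : ℕ) (t : Fin n × Fin n → ℕ) : Prop :=
  (∀ i, Even (∑ j, (t (i, j) : ℤ))) ∧ ∀ j, Even (∑ i, (t (i, j) : ℤ))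

lemma Pr_sub {n : ℕ} (t : Fin n × Fin n → ℕ) (h : Pr n t) (s : Fin n × Fin n → ℤ)
    (hs : s ∈ Z (mg n) t) : Pr n (fun e => t e - (s e).natAbs) := by
  rw [mem_Z, mg_apply, Prod.mk_eq_zero] at hs
  obtain ⟨hb, h1, h2⟩ := hs
  constructor
  · intro i
    have e1 : ∑ j, ((t (i, j) - (s (i, j)).natAbs : ℕ) : ℤ)
        = ∑ j, (t (i, j) : ℤ) + ∑ j, (s (i, j) - |s (i, j)|) - ∑ j, s (i, j) := by
      rw [← sum_add_distrib, ← sum_sub_distrib]
      refine sum_congr rfl (fun j _ => ?_)
      rw [cast_sub_natAbs (hb _)]; ring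
    rw [e1, congrFun h1 i, Pi.zero_apply, sub_zero]
    exact (h.1 i).add (Finset.even_sum _ (fun j _ => even_sub_abs _))
  · intro j
    have e1 : ∑ i, ((t (i, j) - (s (i, j)).natAbs : ℕ) : ℤ)
        = ∑ i, (t (i, j) : ℤ) + ∑ i, (s (i, j) - |s (i, j)|) - ∑ i, s (i, j) := by
      rw [← sum_add_distrib, ← sum_sub_distrib]
      refine sum_congr rfl (fun i _ => ?_)
      rw [cast_sub_natAbs (hb _)]; ring
    rw [e1, congrFun h2 j, Pi.zero_apply, sub_zero]
    exact (h.2 j).add (Finset.even_sum _ (fun i _ => even_sub_abs _))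

lemma Pr_exists {n : ℕ} (t : Fin n × Fin n → ℕ) (h : Pr n t) : (Y (mg n) t 0).Nonempty := by
  classical
  obtain ⟨E, hE⟩ : ∃ E : Finset (Fin n × Fin n), E = univ.filter (fun e => Odd (t e)) := ⟨_, rfl⟩
  have hL : ∀ (f : Fin n × Fin n → ℤ) (i : Fin n),
      ∑ e ∈ E, f e * ind (Sum.inl e.1 : Fin n ⊕ Fin n) (Sum.inl i)
        = ∑ j, if Odd (t (i, j)) then f (i, j) else 0 := by
    intro f i
    rw [hE, sum_filter, ← univ_product_univ, sum_product, sum_eq_single i]
    · refine sum_congr rfl (fun j _ => ?_)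
      simp [ind]
    · intro b _ hb
      refine sum_eq_zero (fun j _ => ?_)
      simp [ind, hb]
    · intro hi; exact absurd (mem_univ _) hi
  have hR : ∀ (f : Fin n × Fin n → ℤ) (j : Fin n),
      ∑ e ∈ E, f e * ind (Sum.inr e.2 : Fin n ⊕ Fin n) (Sum.inr j)
        = ∑ i, if Odd (t (i, j)) then f (i, j) else 0 := by
    intro f j
    rw [hE, sum_filter, ← univ_product_univ, sum_product]
    refine sum_congr rfl (fun i _ => ?_)
    rw [sum_eq_single j]
    · simp [ind]
    · intro b _ hb
      simp [ind, hb]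
    · intro hi; exact absurd (mem_univ _) hi
  have hLR : ∀ (a b : Fin n), ind (Sum.inl a : Fin n ⊕ Fin n) (Sum.inr b) = 0 := by
    intro a b; simp [ind]
  have hRL : ∀ (a b : Fin n), ind (Sum.inr a : Fin n ⊕ Fin n) (Sum.inl b) = 0 := by
    intro a b; simp [ind]
  have hpar : ∀ m : ℕ, Even ((if Odd m then (1:ℤ) else 0) - m) := by
    intro m
    split_ifs with h
    · obtain ⟨k, rfl⟩ := h
      exact ⟨-k, by push_cast; ring⟩
    · rw [Nat.not_odd_iff_even] at h
      obtain ⟨k, rfl⟩ := h
      exact ⟨-k, by push_cast; ring⟩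
  obtain ⟨ε, h1, h2⟩ := exists_balanced (κ := Fin n × Fin n) (V := Fin n ⊕ Fin n) E.card E
    (fun e => Sum.inl e.1) (fun e => Sum.inr e.2) rfl (by
      rintro (i | j)
      · simp only [hRL, add_zero]
        have := hL (fun _ => 1) i
        simp only [one_mul] at this
        rw [this]
        have e1 : ∑ j, (if Odd (t (i, j)) then (1:ℤ) else 0)
            = ∑ j, ((if Odd (t (i, j)) then (1:ℤ) else 0) - t (i, j)) + ∑ j, (t (i, j) : ℤ) := by
          rw [← sum_add_distrib]; refine sum_congr rfl (fun j _ => ?_); ring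
        rw [e1]
        exact (Finset.even_sum _ (fun j _ => hpar _)).add (h.1 i)
      · simp only [hLR, zero_add]
        have := hR (fun _ => 1) j
        simp only [one_mul] at this
        rw [this]
        have e1 : ∑ i, (if Odd (t (i, j)) then (1:ℤ) else 0)
            = ∑ i, ((if Odd (t (i, j)) then (1:ℤ) else 0) - t (i, j)) + ∑ i, (t (i, j) : ℤ) := by
          rw [← sum_add_distrib]; refine sum_congr rfl (fun i _ => ?_); ring
        rw [e1]
        exact (Finset.even_sum _ (fun i _ => hpar _)).add (h.2 j))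
  refine ⟨fun e => if Odd (t e) then ε e else 0, ?_⟩
  rw [mem_Y]
  refine ⟨fun e => ?_, fun e => ?_, ?_⟩

  · split_ifs with ho
    · obtain ⟨k, hk⟩ := ho
      have : |ε e| = 1 := by rcases h1 e with h | h <;> rw [h] <;> simp
      rw [this, hk]; push_cast; linarith [Nat.cast_nonneg (α := ℤ) k]
    · simp

  · split_ifs with ho
    · obtain ⟨k, hk⟩ := ho
      rw [hk]
      rcases h1 e with h | h <;> rw [h]
      · exact ⟨-k, by push_cast; ring⟩
      · exact ⟨-k - 1, by push_cast; ring⟩
    · rw [Nat.not_odd_iff_even] at ho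
      obtain ⟨k, hk⟩ := ho
      rw [hk]
      exact ⟨-k, by push_cast; ring⟩
  · rw [mg_apply, Prod.mk_eq_zero]
    constructor
    · funext i
      have h3 := h2 (Sum.inl i)
      simp only [hRL, sub_zero] at h3
      rw [hL ε i] at h3
      exact h3
    · funext j
      have h3 := h2 (Sum.inr j)
      simp only [hLR, zero_sub, mul_neg, sum_neg_distrib, neg_eq_zero] at h3
      rw [hR ε j] at h3
      exact h3

/-- magic squares as a finite set -/
def Mag (n k : ℕ) : Finset (Fin n × Fin n → ℕ) :=
  (Fintype.piFinset (fun _ => range (k+1))).filter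
    (fun A => (∀ i, ∑ j, A (i, j) = k) ∧ ∀ j, ∑ i, A (i, j) = k)

lemma mem_Mag {n k : ℕ} {A : Fin n × Fin n → ℕ} :
    A ∈ Mag n k ↔ (∀ i, ∑ j, A (i, j) = k) ∧ ∀ j, ∑ i, A (i, j) = k := by
  unfold Mag
  rw [mem_filter, Fintype.mem_piFinset]
  constructor
  · exact fun h => h.2
  · refine fun h => ⟨fun e => ?_, h⟩
    rw [mem_range, Nat.lt_succ_iff, ← h.1 e.1]
    exact single_le_sum (f := fun j => A (e.1, j)) (fun _ _ => Nat.zero_le _) (mem_univ e.2)

/-- constant image -/
def cst (n : ℕ) (c : ℤ) : (Fin n → ℤ) × (Fin n → ℤ) := (fun _ => c, fun _ => c)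

lemma mul_eq_sum (n a b : ℕ) :
    (Mag n a).card * (Mag n b).card = ∑ T ∈ Mag n (a+b), (Y (mg n) T (cst n (a - b))).card := by
  rw [← card_product]
  rw [card_eq_sum_card_fiberwise (s := Mag n a ×ˢ Mag n b) (t := Mag n (a+b))
    (f := fun p => fun e => p.1 e + p.2 e)]
  · refine sum_congr rfl (fun T hT => ?_)
    rw [mem_Mag] at hT
    refine card_bij' (fun p _ => fun e => (p.1 e : ℤ) - p.2 e)
      (fun y _ => (fun e => ((y e + T e) / 2).toNat, fun e => ((T e - y e) / 2).toNat)) ?_ ?_ ?_ ?_
    · rintro ⟨A, B⟩ hp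
      rw [mem_filter, mem_product, mem_Mag, mem_Mag] at hp
      obtain ⟨⟨hA, hB⟩, hT'⟩ := hp
      simp only at hA hB hT'
      rw [mem_Y]
      refine ⟨fun e => ?_, fun e => ?_, ?_⟩
      · have := congrFun hT' e
        simp only at this ⊢
        rw [abs_le]; constructor <;> omega
      · have := congrFun hT' e
        simp only at this ⊢
        exact ⟨-(B e), by rw [← this]; push_cast; ring⟩
      · rw [mg_apply, cst, Prod.mk.injEq]
        constructor
        · funext i
          rw [sum_sub_distrib]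
          have h1 := hA.1 i
          have h2 := hB.1 i
          simp only
          rw [← Nat.cast_sum, ← Nat.cast_sum, h1, h2]
        · funext i
          rw [sum_sub_distrib]
          have h1 := hA.2 i
          have h2 := hB.2 i
          simp only
          rw [← Nat.cast_sum, ← Nat.cast_sum, h1, h2]
    · intro y hy
      rw [mem_Y, mg_apply, cst, Prod.mk.injEq] at hy
      obtain ⟨h1, h2, h3, h4⟩ := hy
      have hA : ∀ e, ((((y e + T e) / 2).toNat : ℕ) : ℤ) * 2 = y e + T e := by
        intro e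
        obtain ⟨r, hr⟩ := h2 e
        have := (abs_le.1 (h1 e)).1
        have := (abs_le.1 (h1 e)).2
        omega
      have hB : ∀ e, ((((T e - y e) / 2).toNat : ℕ) : ℤ) * 2 = T e - y e := by
        intro e
        obtain ⟨r, hr⟩ := h2 e
        have := (abs_le.1 (h1 e)).1
        have := (abs_le.1 (h1 e)).2
        omega
      rw [mem_filter, mem_product, mem_Mag, mem_Mag]
      refine ⟨⟨⟨fun i => ?_, fun j => ?_⟩, ⟨fun i => ?_, fun j => ?_⟩⟩, ?_⟩
      · have e1 : ((∑ j, ((y (i, j) + T (i, j)) / 2).toNat : ℕ) : ℤ) * 2 = a * 2 := by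
          rw [Nat.cast_sum, sum_mul, sum_congr rfl (fun j _ => hA (i, j)), sum_add_distrib,
            congrFun h3 i, ← Nat.cast_sum, hT.1 i]
          push_cast; ring
        simp only
        omega
      · have e1 : ((∑ i, ((y (i, j) + T (i, j)) / 2).toNat : ℕ) : ℤ) * 2 = a * 2 := by
          rw [Nat.cast_sum, sum_mul, sum_congr rfl (fun i _ => hA (i, j)), sum_add_distrib,
            congrFun h4 j, ← Nat.cast_sum, hT.2 j]
          push_cast; ring
        simp only
        omega
      · have e1 : ((∑ j, ((T (i, j) - y (i, j)) / 2).toNat : ℕ) : ℤ) * 2 = b * 2 := by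
          rw [Nat.cast_sum, sum_mul, sum_congr rfl (fun j _ => hB (i, j)), sum_sub_distrib,
            congrFun h3 i, ← Nat.cast_sum, hT.1 i]
          push_cast; ring
        simp only
        omega
      · have e1 : ((∑ i, ((T (i, j) - y (i, j)) / 2).toNat : ℕ) : ℤ) * 2 = b * 2 := by
          rw [Nat.cast_sum, sum_mul, sum_congr rfl (fun i _ => hB (i, j)), sum_sub_distrib,
            congrFun h4 j, ← Nat.cast_sum, hT.2 j]
          push_cast; ring
        simp only
        omega
      · funext e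
        have := hA e
        have := hB e
        simp only
        omega
    · rintro ⟨A, B⟩ hp
      rw [mem_filter] at hp
      have hT' := hp.2
      rw [Prod.mk.injEq]
      constructor
      · funext e
        have := congrFun hT' e
        simp only at this ⊢
        omega
      · funext e
        have := congrFun hT' e
        simp only at this ⊢
        omega
    · intro y hy
      rw [mem_Y] at hy
      funext e
      obtain ⟨r, hr⟩ := hy.2.1 e
      have := (abs_le.1 (hy.1 e)).1
      have := (abs_le.1 (hy.1 e)).2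
      simp only
      omega
  · rintro ⟨A, B⟩ hp
    rw [mem_coe, mem_product, mem_Mag, mem_Mag] at hp
    rw [mem_coe, mem_Mag]
    refine ⟨fun i => ?_, fun j => ?_⟩
    · simp only
      rw [sum_add_distrib, hp.1.1 i, hp.2.1 i]
    · simp only
      rw [sum_add_distrib, hp.1.2 j, hp.2.2 j]

end Pool.Agent.MagicSquares
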