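import Mathlib
import Pool.Agent.MagicSquares.Count

set_option autoImplicit false

namespace Pool.Agent.MagicSquares
open Finset

/-- log-concavity, strict -/
theorem log_concave {n : ℕ} (hn : 2 ≤ n) (k : ℕ) :
    (Mag n k).card * (Mag n (k+2)).card < (Mag n (k+1)).card * (Mag n (k+1)).card := by
  classical
  rw [mul_eq_sum, mul_eq_sum]
  have e1 : k + (k+2) = k+1+(k+1) := by ring
  rw [e1]
  have e2 : cst n (((k+1:ℕ):ℤ) - ((k+1:ℕ):ℤ)) = 0 := by
    unfold cst; rw [sub_self]; rfl
  rw [e2]
  have hPr : ∀ T ∈ Mag n (k+1+(k+1)), Pr n T := by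
    intro T hT
    rw [mem_Mag] at hT
    refine ⟨fun i => ?_, fun j => ?_⟩
    · rw [← Nat.cast_sum, hT.1 i]; exact ⟨((k+1:ℕ):ℤ), by push_cast; ring⟩
    · rw [← Nat.cast_sum, hT.2 j]; exact ⟨((k+1:ℕ):ℤ), by push_cast; ring⟩
  -- the special table
  have hfix : ∀ i : Fin n, finRotate n i ≠ i := by
    intro i
    obtain ⟨m, rfl⟩ : ∃ m, n = m + 2 := ⟨n - 2, by omega⟩
    rw [finRotate_apply]
    intro h
    have := add_eq_left.1 h
    exact absurd this (by simp)
  obtain ⟨σ, hσ⟩ : ∃ σ : Equiv.Perm (Fin n), σ = finRotate n := ⟨_, rfl⟩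
  rw [← hσ] at hfix
  obtain ⟨T0, hT0⟩ : ∃ T0 : Fin n × Fin n → ℕ, T0 = fun e =>
    (k+1) * (if e.2 = e.1 then 1 else 0) + (k+1) * (if e.2 = σ e.1 then 1 else 0) := ⟨_, rfl⟩
  obtain ⟨s0, hs0⟩ : ∃ s0 : Fin n × Fin n → ℤ, s0 = fun e =>
    ((k:ℤ)+1) * (if e.2 = e.1 then 1 else 0) - ((k:ℤ)+1) * (if e.2 = σ e.1 then 1 else 0) := ⟨_, rfl⟩
  have hsr : ∀ i, ∑ j, (if j = σ i then (1:ℤ) else 0) = 1 := by intro i; simp
  have hsc : ∀ j, ∑ i, (if j = σ i then (1:ℤ) else 0) = 1 := by
    intro j
    rw [sum_eq_single (σ.symm j)]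
    · simp
    · intro b _ hb
      rw [if_neg]
      intro h
      exact hb (by rw [h]; simp)
    · intro h; exact absurd (mem_univ _) h
  have hsrN : ∀ i, ∑ j, (if j = σ i then (1:ℕ) else 0) = 1 := by intro i; simp
  have hscN : ∀ j, ∑ i, (if j = σ i then (1:ℕ) else 0) = 1 := by
    intro j
    rw [sum_eq_single (σ.symm j)]
    · simp
    · intro b _ hb
      rw [if_neg]
      intro h
      exact hb (by rw [h]; simp)
    · intro h; exact absurd (mem_univ _) h
  have hT0m : T0 ∈ Mag n (k+1+(k+1)) := by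
    rw [mem_Mag, hT0]
    refine ⟨fun i => ?_, fun j => ?_⟩
    · simp only
      rw [sum_add_distrib, ← mul_sum, ← mul_sum, hsrN i]
      simp
    · simp only
      rw [sum_add_distrib, ← mul_sum, ← mul_sum, hscN j]
      simp
  have hnpos : 0 < n := by omega
  have hδ : cst n ((k:ℤ) - ((k+2:ℕ):ℤ)) ≠ 0 := by
    intro h
    have := congrFun (congrArg Prod.fst h) ⟨0, hnpos⟩
    simp only [cst, Prod.fst_zero, Pi.zero_apply] at this
    push_cast at this
    omega
  refine sum_lt_sum (fun T hT => ?_) ⟨T0, hT0m, ?_⟩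
  · exact central_max (mg n) no_two_torsion (Pr n) (fun t h s hs => Pr_sub t h s hs)
      (fun t h => Pr_exists t h) _ T rfl (hPr T hT) _
  · refine central_max_strict (mg n) no_two_torsion (Pr n) (fun t h s hs => Pr_sub t h s hs)
      (fun t h => Pr_exists t h) T0 (hPr T0 hT0m) _ hδ s0 ?_ ?_ ?_
    · intro h
      have h1 := congrFun h (⟨0, hnpos⟩, ⟨0, hnpos⟩)
      rw [hs0] at h1
      simp only [Pi.zero_apply, if_true] at h1
      rw [if_neg (fun h => hfix _ h.symm)] at h1
      omega
    · rw [mg_apply, Prod.mk_eq_zero, hs0]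
      constructor
      · funext i
        simp only
        rw [sum_sub_distrib, ← mul_sum, ← mul_sum, hsr i]
        simp
      · funext j
        simp only
        rw [sum_sub_distrib, ← mul_sum, ← mul_sum, hsc j]
        simp
    · rintro ⟨i, j⟩
      rw [hs0, hT0]
      simp only
      by_cases h1 : j = i
      · have h2 : ¬ j = σ i := by
          intro h; exact hfix i (by rw [← h, h1])
        rw [if_pos h1, if_neg h2, if_pos h1, if_neg h2]
        omega
      · by_cases h2 : j = σ i
        · rw [if_neg h1, if_pos h2, if_neg h1, if_pos h2]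
          omega
        · rw [if_neg h1, if_neg h2, if_neg h1, if_neg h2]
          omega

lemma Mag_pos (n k : ℕ) : 0 < (Mag n k).card := by
  rw [card_pos]
  refine ⟨fun e => k * (if e.2 = e.1 then 1 else 0), ?_⟩
  rw [mem_Mag]
  refine ⟨fun i => ?_, fun j => ?_⟩
  · simp only
    rw [← mul_sum]; simp
  · simp only
    rw [← mul_sum]; simp

theorem ratio {n : ℕ} (hn : 2 ≤ n) (j d : ℕ) (hd : 1 ≤ d) :
    (Mag n j).card * (Mag n (j+d+1)).card < (Mag n (j+1)).card * (Mag n (j+d)).card := by
  induction d, hd using Nat.le_induction with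
  | base => exact log_concave hn j
  | succ d hd ih =>
    have h1 := log_concave hn (j+d)
    have p1 := Mag_pos n (j+d)
    have p2 := Mag_pos n (j+d+1)
    have e1 : j + (d+1) + 1 = j + d + 2 := by ring
    have e2 : j + (d+1) = j + d + 1 := by ring
    rw [e1, e2]
    by_contra hcon
    push Not at hcon
    have h2 := Nat.mul_lt_mul'' ih h1
    have h3 : (Mag n (j+1)).card * (Mag n (j+d)).card * ((Mag n (j+d+1)).card * (Mag n (j+d+1)).card)
        ≤ (Mag n j).card * (Mag n (j+d+1)).card * ((Mag n (j+d)).card * (Mag n (j+d+2)).card) := by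
      calc (Mag n (j+1)).card * (Mag n (j+d)).card * ((Mag n (j+d+1)).card * (Mag n (j+d+1)).card)
          = ((Mag n (j+1)).card * (Mag n (j+d+1)).card)
            * ((Mag n (j+d)).card * (Mag n (j+d+1)).card) := by ring
        _ ≤ ((Mag n j).card * (Mag n (j+d+2)).card)
            * ((Mag n (j+d)).card * (Mag n (j+d+1)).card) := Nat.mul_le_mul_right _ hcon
        _ = _ := by ring
    omega

/-- positive tables -/
theorem pos_card {n k : ℕ} (hk : n ≤ k) :
    ((Mag n k).filter (fun A => ∀ e, 1 ≤ A e)).card = (Mag n (k - n)).card := by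
  refine card_bij' (fun A _ => fun e => A e - 1) (fun B _ => fun e => B e + 1) ?_ ?_ ?_ ?_
  · intro A hA
    rw [mem_filter, mem_Mag] at hA
    obtain ⟨⟨h1, h2⟩, h3⟩ := hA
    rw [mem_Mag]
    refine ⟨fun i => ?_, fun j => ?_⟩
    · have : ∑ j, (A (i, j) - 1) + ∑ _j : Fin n, 1 = k := by
        rw [← sum_add_distrib, ← h1 i]
        exact sum_congr rfl (fun j _ => Nat.sub_add_cancel (h3 _))
      simp only [sum_const, card_univ, Fintype.card_fin, smul_eq_mul, mul_one] at this
      omega
    · have : ∑ i, (A (i, j) - 1) + ∑ _i : Fin n, 1 = k := by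
        rw [← sum_add_distrib, ← h2 j]
        exact sum_congr rfl (fun i _ => Nat.sub_add_cancel (h3 _))
      simp only [sum_const, card_univ, Fintype.card_fin, smul_eq_mul, mul_one] at this
      omega
  · intro B hB
    rw [mem_Mag] at hB
    rw [mem_filter, mem_Mag]
    refine ⟨⟨fun i => ?_, fun j => ?_⟩, fun e => by simp⟩
    · rw [sum_add_distrib, hB.1 i]
      simp only [sum_const, card_univ, Fintype.card_fin, smul_eq_mul, mul_one]
      omega
    · rw [sum_add_distrib, hB.2 j]
      simp only [sum_const, card_univ, Fintype.card_fin, smul_eq_mul, mul_one]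
      omega
  · intro A hA
    rw [mem_filter] at hA
    funext e
    have := hA.2 e
    simp only
    omega
  · intro B _
    funext e
    simp

theorem main {n k : ℕ} (hn : 2 ≤ n) (hk : n ≤ k) :
    (((Mag n k).filter (fun A => ∀ e, 1 ≤ A e)).card : ℝ) / (Mag n k).card
      < (((Mag n (k+1)).filter (fun A => ∀ e, 1 ≤ A e)).card : ℝ) / (Mag n (k+1)).card := by
  rw [pos_card hk, pos_card (by omega : n ≤ k+1)]
  have p1 : (0:ℝ) < (Mag n k).card := by exact_mod_cast Mag_pos n k
  have p2 : (0:ℝ) < (Mag n (k+1)).card := by exact_mod_cast Mag_pos n (k+1)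
  rw [div_lt_div_iff₀ p1 p2]
  have h := ratio hn (k-n) n (by omega)
  have e1 : k - n + n + 1 = k + 1 := by omega
  have e2 : k - n + n = k := by omega
  have e3 : k - n + 1 = k + 1 - n := by omega
  rw [e1, e2, e3] at h
  exact_mod_cast h

end Pool.Agent.MagicSquares
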